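import Pool.Agent.Helper10.Stmt.DefsHS

/-!
Semidefinite Hermitian forms on the tangent bundle which are pulled back, by holomorphic maps to a
Hermitian vector bundle, from metrics which are seminegatively curved along the map.
-/

open Complex Set
open scoped Manifold ContDiff ComplexConjugate ComplexOrder Topology Matrix

namespace Pool.Agent.Helper45.Stmt

open Pool.Agent.Helper10.Stmt

/-- Four times the curvature tensor
`R_ijkl = - ∂_k ∂b_l h_ij + ∑ (∂_k h_ip) (h⁻¹)_pq (∂b_l h_qj)` of the Hermitian metric `h` of the trivial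
bundle of rank `m` on an open set of `ℂⁿ` (`i`, `j` are the indices of the bundle). -/
noncomputable def curvE {n m : ℕ} (h : (Fin n → ℂ) → Matrix (Fin m) (Fin m) ℂ) (x : Fin n → ℂ)
    (i j : Fin m) (k l : Fin n) : ℂ :=
  - dz k (dzb l fun y => h y i j) x +
    ∑ p, ∑ q, dz k (fun y => h y i p) x * (h x)⁻¹ p q * dzb l (fun y => h y q j) x

/-- The form `g` on the tangent bundle of `X` is locally `|σ|²` for a holomorphic map `σ` from the
tangent bundle to the trivial bundle of rank `m` with a Hermitian metric `h` whose curvature is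
nonpositive along `σ`: every point of `X` has a local parametrization `ψ` by an open set of `ℂⁿ` in which
the matrix of `g` is `σ h σᴴ`, with `σ` a holomorphic matrix, `h` smooth and positive definite, and
`R^h(s, s, u, u) ≤ 0` for all `u` and all `s = w σ` in the image of `σ`. -/
def SeminegAlong (n m : ℕ) (X : Type*) [TopologicalSpace X] [ChartedSpace (Fin n → ℂ) X]
    (g : X → Matrix (Fin n) (Fin n) ℂ) : Prop :=
  ∀ p : X, ∃ (V : Set (Fin n → ℂ)) (ψ : (Fin n → ℂ) → X) (z : Fin n → ℂ)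
    (σ : (Fin n → ℂ) → Matrix (Fin n) (Fin m) ℂ) (h : (Fin n → ℂ) → Matrix (Fin m) (Fin m) ℂ),
    Par n ψ V ∧ z ∈ V ∧ ψ z = p ∧ (∀ i j, DifferentiableOn ℂ (fun x => σ x i j) V) ∧
    (∀ x ∈ V, (h x).PosDef) ∧ (∀ i j, ContDiffOn ℝ ∞ (fun x => h x i j) V) ∧
    (∀ x ∈ V, pullM n g ψ x = σ x * h x * (σ x)ᴴ) ∧
    ∀ x ∈ V, ∀ u w : Fin n → ℂ, (∑ i, ∑ j, ∑ k, ∑ l, curvE h x i j k l *
      (w ᵥ* σ x) i * conj ((w ᵥ* σ x) j) * u k * conj (u l)).re ≤ 0

/-- The curvature `i∂∂b log v` of the canonical bundle with the Hermitian metric given by the volume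
density `v`, plus the form `g`, is positive definite. -/
def CurvAddPos (n : ℕ) (X : Type*) [TopologicalSpace X] [ChartedSpace (Fin n → ℂ) X]
    (v : X → ℝ) (g : X → Matrix (Fin n) (Fin n) ℂ) : Prop :=
  ∀ (V : Set (Fin n → ℂ)) (ψ : (Fin n → ℂ) → X), Par n ψ V → ∀ x ∈ V, ∀ e : Fin n → ℂ, e ≠ 0 →
    0 < lev (lpot n v ψ) x e + (herm (pullM n g ψ x) e e).re

end Pool.Agent.Helper45.Stmt
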