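import Pool.Agent.Helper45.Stmt.DefsTRB
import Pool.Agent.Helper45.Stmt.DefsHB

/-!
Semidefinite Hermitian forms on the tangent bundle which are locally pulled back, by holomorphic maps, from
Hermitian metrics whose real bisectional curvature is bounded along the map by a semipositive curvature form
of the canonical bundle.
-/

open Complex Set
open scoped Manifold ContDiff ComplexConjugate ComplexOrder Topology

namespace Pool.Agent.Helper45.Stmt

open Pool.Agent.Helper10.Stmt

/-- The differential at `x` of the map `F` from `ℂⁿ` to `ℂᵐ`, applied to the vector `u`. -/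
noncomputable def push {n m : ℕ} (F : (Fin n → ℂ) → Fin m → ℂ) (x u : Fin n → ℂ) : Fin m → ℂ :=
  fderiv ℂ F x u

/-- The form `g` on the tangent bundle of `X` is locally the pull back `F^* h` of a Hermitian metric `h` on an
open set `N` of `ℂᵐ` by a holomorphic map `F`, and the real bisectional curvature (of the Chern connection) of
`h` is at most `c θ` along `F`, for `θ` the curvature form of the Hermitian metric of the canonical bundle given
by the volume density `v`: every point of `X` has a local parametrization `ψ` by an open set `V` of `ℂⁿ` and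
`F : V → N`, `h` with
`∑ R^h(F_* u_a, F_* u_a, F_* u_b, F_* u_b) ≤ c ∑ θ(u_a, u_b) g(u_b, u_a)` (the sums over all `a` and `b`)
for every finite family `u` of vectors at every point of `V`. -/
def PullRBC (n m : ℕ) (X : Type*) [TopologicalSpace X] [ChartedSpace (Fin n → ℂ) X]
    (g : X → Matrix (Fin n) (Fin n) ℂ) (v : X → ℝ) (c : ℝ) : Prop :=
  ∀ p : X, ∃ (V : Set (Fin n → ℂ)) (ψ : (Fin n → ℂ) → X) (z : Fin n → ℂ) (N : Set (Fin m → ℂ))
    (F : (Fin n → ℂ) → Fin m → ℂ) (h : (Fin m → ℂ) → Matrix (Fin m) (Fin m) ℂ),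
    Par n ψ V ∧ z ∈ V ∧ ψ z = p ∧ DifferentiableOn ℂ F V ∧ IsOpen N ∧ MapsTo F V N ∧
    (∀ y ∈ N, (h y).PosDef) ∧ (∀ i j, ContDiffOn ℝ ∞ (fun y => h y i j) N) ∧
    (∀ x ∈ V, ∀ u w : Fin n → ℂ, herm (pullM n g ψ x) u w = herm (h (F x)) (push F x u) (push F x w)) ∧
    ∀ x ∈ V, ∀ (r : ℕ) (u : Fin r → Fin n → ℂ), (∑ a, ∑ b, ∑ i, ∑ j, ∑ k, ∑ l,
      curv h (F x) i j k l * push F x (u a) i * conj (push F x (u a) j) * push F x (u b) k *
        conj (push F x (u b) l)).re ≤
    c * (∑ a, ∑ b, herm (curvK n v ψ x) (u a) (u b) * herm (pullM n g ψ x) (u b) (u a)).re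

end Pool.Agent.Helper45.Stmt
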