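import Pool.Agent.Helper10.Stmt.DefsHS
import Pool.Agent.Helper10.Stmt.DefsK

/-!
Hermitian metrics with nonpositive real bisectional curvature.
-/

open Complex Set
open scoped Manifold ContDiff ComplexConjugate ComplexOrder Topology

namespace Pool.Agent.Helper45.Stmt

open Pool.Agent.Helper10.Stmt

/-- The Hermitian metric `g` has nonpositive real bisectional curvature (in the sense of Yang and Zheng):
with `R` the curvature of the Chern connection, `∑ R(v_a, v_a, v_b, v_b) ≤ 0` (the sum over all `a` and
`b`) for every finite family `v` of vectors at every point, in every local parametrization. -/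
def NonposRBC (n : ℕ) (X : Type*) [TopologicalSpace X] [ChartedSpace (Fin n → ℂ) X]
    (g : X → Matrix (Fin n) (Fin n) ℂ) : Prop :=
  ∀ (V : Set (Fin n → ℂ)) (ψ : (Fin n → ℂ) → X), Par n ψ V → ∀ x ∈ V,
    ∀ (m : ℕ) (v : Fin m → Fin n → ℂ), (∑ a, ∑ b, ∑ i, ∑ j, ∑ k, ∑ l,
      curv (pullM n g ψ) x i j k l * v a i * conj (v a j) * v b k * conj (v b l)).re ≤ 0

end Pool.Agent.Helper45.Stmt
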