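import Pool.Agent.Helper10.Stmt.ConvK
import Pool.Agent.Helper18.FM.GoalsC
import Pool.Agent.Helper45.Stmt.DefsFM

/-! The theorem FM in the form of the hand-ins. -/

open Complex Set
open scoped Manifold ContDiff ComplexConjugate ComplexOrder Topology

namespace Pool.Agent.Helper45.Stmt

open Pool.Agent Pool.Agent.Helper10.Stmt

universe u v

theorem orb_of_fm (hM : Helper18.FM.S_MAINF.{u, v}) {n m : ℕ} {G : Type u} {M : Type v}
    [Group G] [MulAction G M] [TopologicalSpace M] [T2Space M] [ConnectedSpace M]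
    [ChartedSpace (Fin n → ℂ) M] [IsManifold 𝓘(ℂ, Fin n → ℂ) ω M] (hact : ProperCocompact n G M)
    {h g : M → Matrix (Fin n) (Fin n) ℂ} (hh : KahlerMetric n M h)
    (hinv : ∀ γ : G, InvMetric n h (fun y : M => γ • y))
    (hginv : ∀ γ : G, InvMetric n g (fun y : M => γ • y)) {v : M → ℝ} (hv : CanMetric n M v)
    (hvinv : ∀ (γ : G) (x : M), v (γ • x) * ‖jac n (fun y : M => γ • y) x‖ ^ 2 = v x) {c : ℝ}
    (hc : 0 ≤ c) (hsemi : CurvSemipos n M v c) (hpos : CurvAddPos n M v g)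
    (hg : PullRBC n m M g v c) : OrbSemiample n G M :=
  orb_iff.2 (hM ⟨⟨hact.1, hact.2.1, hact.2.2.2⟩, hact.2.2.1, kahler_iff.1 hh,
    fun γ => inv_iff.1 (hinv γ)⟩ (fun γ => inv_iff.1 (hginv γ)) v (can_iff.1 hv) hvinv c hc
    hsemi hpos hg)

theorem can_of_fm (hM : Helper18.FM.S_MAINF.{0, v}) {n m : ℕ} {X : Type v}
    [TopologicalSpace X] [T2Space X] [CompactSpace X] [ConnectedSpace X]
    [ChartedSpace (Fin n → ℂ) X] [IsManifold 𝓘(ℂ, Fin n → ℂ) ω X]
    {h g : X → Matrix (Fin n) (Fin n) ℂ} (hh : KahlerMetric n X h) {v : X → ℝ}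
    (hv : CanMetric n X v) {c : ℝ} (hc : 0 ≤ c) (hsemi : CurvSemipos n X v c)
    (hpos : CurvAddPos n X v g) (hg : PullRBC n m X g v c) : CanSemiample n X :=
  can_of_orb fun _ _ _ hact hinv hvinv =>
    orb_of_fm hM hact hh (hinv h) (hinv g) hv (hvinv v) hc hsemi hpos hg

end Pool.Agent.Helper45.Stmt
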