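import Pool.Agent.Helper10.Stmt.ConvK
import Pool.Agent.Helper45.HB.GoalsM

/-! The theorem HB in the form of the hand-ins. -/

open Complex Set
open scoped Manifold ContDiff ComplexConjugate ComplexOrder Topology

namespace Pool.Agent.Helper45.Stmt

open Pool.Agent Pool.Agent.Helper10.Stmt

universe u v

theorem orb_of_hb (hM : Helper45.HB.S_MAINH.{u, v}) {n m : ℕ} {G : Type u} {M : Type v}
    [Group G] [MulAction G M] [TopologicalSpace M] [T2Space M] [ConnectedSpace M]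
    [ChartedSpace (Fin n → ℂ) M] [IsManifold 𝓘(ℂ, Fin n → ℂ) ω M] (hact : ProperCocompact n G M)
    {h g : M → Matrix (Fin n) (Fin n) ℂ} (hh : KahlerMetric n M h)
    (hinv : ∀ γ : G, InvMetric n h (fun y : M => γ • y)) (hg : SeminegAlong n m M g)
    (hginv : ∀ γ : G, InvMetric n g (fun y : M => γ • y)) {v : M → ℝ} (hv : CanMetric n M v)
    (hvinv : ∀ (γ : G) (x : M), v (γ • x) * ‖jac n (fun y : M => γ • y) x‖ ^ 2 = v x)
    (hpos : CurvAddPos n M v g) : OrbSemiample n G M :=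
  orb_iff.2 (hM ⟨⟨hact.1, hact.2.1, hact.2.2.2⟩, hact.2.2.1, kahler_iff.1 hh,
    fun γ => inv_iff.1 (hinv γ)⟩ hg (fun γ => inv_iff.1 (hginv γ)) v (can_iff.1 hv) hvinv hpos)

theorem can_of_hb (hM : Helper45.HB.S_MAINH.{0, v}) {n m : ℕ} {X : Type v}
    [TopologicalSpace X] [T2Space X] [CompactSpace X] [ConnectedSpace X]
    [ChartedSpace (Fin n → ℂ) X] [IsManifold 𝓘(ℂ, Fin n → ℂ) ω X]
    {h g : X → Matrix (Fin n) (Fin n) ℂ} (hh : KahlerMetric n X h)
    (hg : SeminegAlong n m X g) {v : X → ℝ} (hv : CanMetric n X v)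
    (hpos : CurvAddPos n X v g) : CanSemiample n X :=
  can_of_orb fun _ _ _ hact hinv hvinv =>
    orb_of_hb hM hact hh (hinv h) hg (hinv g) hv (hvinv v) hpos

end Pool.Agent.Helper45.Stmt
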