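import Pool.Agent.Helper10.Stmt.ConvK
import Pool.Agent.Helper45.RBC.GoalsM

/-! The theorem RBC in the form of the hand-ins. -/

open Complex Set
open scoped Manifold ContDiff ComplexConjugate ComplexOrder Topology

namespace Pool.Agent.Helper45.Stmt

open Pool.Agent Pool.Agent.Helper10.Stmt

universe u v

theorem orb_of_rbc (hM : Helper45.RBC.S_MAINR.{u, v}) {n : ℕ} {G : Type u} {M : Type v}
    [Group G] [MulAction G M] [TopologicalSpace M] [T2Space M] [ConnectedSpace M]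
    [ChartedSpace (Fin n → ℂ) M] [IsManifold 𝓘(ℂ, Fin n → ℂ) ω M] (hact : ProperCocompact n G M)
    {h g : M → Matrix (Fin n) (Fin n) ℂ} (hh : KahlerMetric n M h)
    (hinv : ∀ γ : G, InvMetric n h (fun y : M => γ • y)) (hg : HermitianMetric n M g)
    (hginv : ∀ γ : G, InvMetric n g (fun y : M => γ • y)) (hneg : NonposRBC n M g) :
    OrbSemiample n G M :=
  orb_iff.2 (hM ⟨⟨hact.1, hact.2.1, hact.2.2.2⟩, hact.2.2.1, kahler_iff.1 hh,
    fun γ => inv_iff.1 (hinv γ)⟩ (hermitian_iff.1 hg) (fun γ => inv_iff.1 (hginv γ)) hneg)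

theorem can_of_rbc (hM : Helper45.RBC.S_MAINR.{0, v}) {n : ℕ} {X : Type v}
    [TopologicalSpace X] [T2Space X] [CompactSpace X] [ConnectedSpace X]
    [ChartedSpace (Fin n → ℂ) X] [IsManifold 𝓘(ℂ, Fin n → ℂ) ω X]
    {h g : X → Matrix (Fin n) (Fin n) ℂ} (hh : KahlerMetric n X h) (hg : HermitianMetric n X g)
    (hneg : NonposRBC n X g) : CanSemiample n X :=
  can_of_orb fun _ _ _ hact hinv _ =>
    orb_of_rbc hM hact hh (hinv h) hg (hinv g) hneg

end Pool.Agent.Helper45.Stmt
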