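import Pool.Agent.Helper45.Stmt.DefsTRB
import Pool.Agent.Helper45.Stmt.ConvRBC
import Pool.Agent.Helper45.RBC.HERR
import Pool.Agent.Helper27.TRB.Goals2

/-! The theorem T in the form of the hand-ins. -/

open Complex Set
open scoped Manifold ContDiff ComplexConjugate ComplexOrder Topology

namespace Pool.Agent.Helper45.Stmt

open Pool.Agent Pool.Agent.Helper10.Stmt

universe u v

theorem bnd_of {n : ℕ} {X : Type v} [TopologicalSpace X] [ChartedSpace (Fin n → ℂ) X]
    {g : X → Matrix (Fin n) (Fin n) ℂ} {v : X → ℝ} {c : ℝ} (h : BoundedRBC n X g v c) :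
    Helper27.TRB.BndRBC n X g v c := by
  intro V ψ hψ x hx m u
  refine le_trans (le_of_eq ?_) (h V ψ hψ x hx m u)
  refine congrArg Complex.re ?_
  refine Finset.sum_congr rfl fun a _ => Finset.sum_congr rfl fun b _ =>
    Finset.sum_congr rfl fun i _ => Finset.sum_congr rfl fun j _ =>
    Finset.sum_congr rfl fun k _ => Finset.sum_congr rfl fun l _ => ?_
  rw [← Helper45.RBC.curv_eq]
  rfl

theorem nonpos_of {n : ℕ} {X : Type v} [TopologicalSpace X] [ChartedSpace (Fin n → ℂ) X]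
    {g : X → Matrix (Fin n) (Fin n) ℂ} {v : X → ℝ} (h : BoundedRBC n X g v 0) :
    NonposRBC n X g := by
  intro V ψ hψ x hx m u
  have := h V ψ hψ x hx m u
  rwa [zero_mul] at this

theorem orb_of_trb (hM : Helper27.TRB.S_MAINT.{u, v}) (hR : Helper45.RBC.S_MAINR.{u, v})
    {n : ℕ} {G : Type u} {M : Type v}
    [Group G] [MulAction G M] [TopologicalSpace M] [T2Space M] [ConnectedSpace M]
    [ChartedSpace (Fin n → ℂ) M] [IsManifold 𝓘(ℂ, Fin n → ℂ) ω M] (hact : ProperCocompact n G M)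
    {h g : M → Matrix (Fin n) (Fin n) ℂ} (hh : KahlerMetric n M h)
    (hinv : ∀ γ : G, InvMetric n h (fun y : M => γ • y)) (hg : HermitianMetric n M g)
    (hginv : ∀ γ : G, InvMetric n g (fun y : M => γ • y)) {v : M → ℝ} (hv : CanMetric n M v)
    (hvinv : ∀ (γ : G) (x : M), v (γ • x) * ‖jac n (fun y : M => γ • y) x‖ ^ 2 = v x) {c : ℝ}
    (hc : 0 ≤ c) (hsemi : CurvSemipos n M v c) (hb : BoundedRBC n M g v c) :
    OrbSemiample n G M := by
  rcases hc.eq_or_lt with rfl | hc0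
  · exact orb_of_rbc hR hact hh hinv hg hginv (nonpos_of hb)
  · exact orb_iff.2 (hM ⟨⟨hact.1, hact.2.1, hact.2.2.2⟩, hact.2.2.1, kahler_iff.1 hh,
      fun γ => inv_iff.1 (hinv γ)⟩ (hermitian_iff.1 hg) (fun γ => inv_iff.1 (hginv γ)) v
      (can_iff.1 hv) hvinv c hc0
      (fun V E hE x hx e => nonneg_of_mul_nonneg_right (hsemi V E hE x hx e) hc0) (bnd_of hb))

theorem can_of_trb (hM : Helper27.TRB.S_MAINT.{0, v}) (hR : Helper45.RBC.S_MAINR.{0, v})
    {n : ℕ} {X : Type v}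
    [TopologicalSpace X] [T2Space X] [CompactSpace X] [ConnectedSpace X]
    [ChartedSpace (Fin n → ℂ) X] [IsManifold 𝓘(ℂ, Fin n → ℂ) ω X]
    {h g : X → Matrix (Fin n) (Fin n) ℂ} (hh : KahlerMetric n X h) (hg : HermitianMetric n X g)
    {v : X → ℝ} (hv : CanMetric n X v) {c : ℝ} (hc : 0 ≤ c) (hsemi : CurvSemipos n X v c)
    (hb : BoundedRBC n X g v c) : CanSemiample n X :=
  can_of_orb fun _ _ _ hact hinv hvinv =>
    orb_of_trb hM hR hact hh (hinv h) hg (hinv g) hv (hvinv v) hc hsemi hb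

end Pool.Agent.Helper45.Stmt
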