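import Pool.Agent.Helper10.Stmt.DefsHS
import Pool.Agent.Helper10.Stmt.DefsK

/-!
Hermitian metrics whose real bisectional curvature is bounded by a semipositive curvature form of the
canonical bundle.
-/

open Complex Set
open scoped Manifold ContDiff ComplexConjugate ComplexOrder Topology

namespace Pool.Agent.Helper45.Stmt

open Pool.Agent.Helper10.Stmt

/-- Four times the matrix `∂_j ∂b_k log v` of the curvature form `θ` of the Hermitian metric of the
canonical bundle given by the volume density `v`, in the parametrization `ψ`, at the point `x`. -/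
noncomputable def curvK (n : ℕ) {X : Type*} [TopologicalSpace X] [ChartedSpace (Fin n → ℂ) X]
    (v : X → ℝ) (ψ : (Fin n → ℂ) → X) (x : Fin n → ℂ) : Matrix (Fin n) (Fin n) ℂ :=
  Matrix.of fun j k => dz j (dzb k fun y => ((lpot n v ψ y : ℝ) : ℂ)) x

/-- `c θ` is semipositive, for `θ` the curvature form of the Hermitian metric of the canonical bundle
given by the volume density `v`. -/
def CurvSemipos (n : ℕ) (X : Type*) [TopologicalSpace X] [ChartedSpace (Fin n → ℂ) X]
    (v : X → ℝ) (c : ℝ) : Prop :=
  ∀ (V : Set (Fin n → ℂ)) (ψ : (Fin n → ℂ) → X), Par n ψ V → ∀ x ∈ V, ∀ e : Fin n → ℂ,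
    0 ≤ c * lev (lpot n v ψ) x e

/-- The real bisectional curvature (of the Chern connection) of the Hermitian metric `g` is at most
`c θ`, for `θ` the curvature form of the Hermitian metric of the canonical bundle given by the volume
density `v`: `∑ R(u_a, u_a, u_b, u_b) ≤ c ∑ θ(u_a, u_b) g(u_b, u_a)` (the sums over all `a` and `b`)
for every finite family `u` of vectors at every point, in every local parametrization. -/
def BoundedRBC (n : ℕ) (X : Type*) [TopologicalSpace X] [ChartedSpace (Fin n → ℂ) X]
    (g : X → Matrix (Fin n) (Fin n) ℂ) (v : X → ℝ) (c : ℝ) : Prop :=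
  ∀ (V : Set (Fin n → ℂ)) (ψ : (Fin n → ℂ) → X), Par n ψ V → ∀ x ∈ V,
    ∀ (m : ℕ) (u : Fin m → Fin n → ℂ), (∑ a, ∑ b, ∑ i, ∑ j, ∑ k, ∑ l,
      curv (pullM n g ψ) x i j k l * u a i * conj (u a j) * u b k * conj (u b l)).re ≤
    c * (∑ a, ∑ b, herm (curvK n v ψ x) (u a) (u b) * herm (pullM n g ψ x) (u b) (u a)).re

end Pool.Agent.Helper45.Stmt
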